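import Mathlib

/-!
# Counting connected restrictions of binary matroids via cocycle bases

For a binary matroid `M` on a finite ground set, an element `e` and `k ≥ 1`, the number
`N_k(M, e)` of `k`-element sets `S` containing `e` with `M | S` connected is at most
`(2 ^ (Λ - 1)) ^ (k - 1)`, where `Λ` is the minimum over all bases of the cocycle space of the
maximum size of a member of the basis.
-/

namespace Pool.Agent.Results.MP_0dc42e_co.ConnectedRestrictionBound

open Submodule

universe u

section Defs

variable {α : Type u}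

/-- A matroid `M` is binary if it is represented by a matrix over `GF(2)`: a set of elements of `M`
is independent exactly when the corresponding columns are linearly independent. -/
def IsBinary (M : Matroid α) : Prop :=
  ∃ (m : ℕ) (A : Matrix (Fin m) α (ZMod 2)),
    ∀ I ⊆ M.E, (M.Indep I ↔ LinearIndepOn (ZMod 2) A.col I)

/-- The characteristic vector over `GF(2)` of a set. -/
noncomputable def charVec (K : Set α) : α → ZMod 2 := K.indicator (fun _ => 1)

/-- The cocycle space of `M`: the span over `GF(2)` of the (characteristic vectors of) cocircuits,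
that is, the set of all symmetric differences of cocircuits. -/
noncomputable def cocycleSpace (M : Matroid α) : Submodule (ZMod 2) (α → ZMod 2) :=
  span (ZMod 2) {x | ∃ K, M.IsCocircuit K ∧ x = charVec K}

/-- `B` is a basis of the cocycle space of `M`. -/
def IsCocycleBasis (M : Matroid α) (B : Set (α → ZMod 2)) : Prop :=
  LinearIndepOn (ZMod 2) id B ∧ span (ZMod 2) B = cocycleSpace M

/-- The minimum, over all bases `B` of the cocycle space of `M`, of the maximum size (number of
nonzero coordinates) of a member of `B`. It is `0` if the cocycle space is trivial. -/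
noncomputable def lambdaTilde (M : Matroid α) : ℕ :=
  sInf {m | ∃ B : Set (α → ZMod 2), IsCocycleBasis M B ∧
    m = sSup {n | ∃ x ∈ B, n = (Function.support x).ncard}}

/-- The restriction of `M` to `S` is connected: every two elements of `S` lie in a common circuit
of `M | S`. -/
def IsConnectedOn (M : Matroid α) (S : Set α) : Prop :=
  ∀ x ∈ S, ∀ y ∈ S, x ≠ y → ∃ C, (M.restrict S).IsCircuit C ∧ x ∈ C ∧ y ∈ C

/-- `N_k(M, e)`: the number of `k`-element sets `S` of elements of `M` that contain `e` and for
which `M | S` is connected. -/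
noncomputable def numConnected (M : Matroid α) (e : α) (k : ℕ) : ℕ :=
  {S : Set α | S ⊆ M.E ∧ e ∈ S ∧ S.ncard = k ∧ IsConnectedOn M S}.ncard

end Defs

/-! ### Linear algebra: ranks of restricted row spaces -/

section Rank

variable {α : Type u} {F : Type*} [Field F]

/-- Restriction of vectors to the coordinates in `T`. -/
def restr (F : Type*) [Field F] (T : Finset α) : (α → F) →ₗ[F] (T → F) :=
  LinearMap.funLeft F F (fun t : T => (t : α))

@[simp] lemma restr_apply (T : Finset α) (x : α → F) (t : T) : restr F T x t = x t := rfl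

/-- The dimension of the restriction of the space `Y` of vectors to the coordinates in `T`. -/
noncomputable def rk (Y : Submodule F (α → F)) (T : Finset α) : ℕ :=
  Module.finrank F (Y.map (restr F T))

lemma rk_mono_right (Y : Submodule F (α → F)) {T S : Finset α} (h : T ⊆ S) : rk Y T ≤ rk Y S := by
  have h1 : restr F T = (LinearMap.funLeft F F (fun t : T => (⟨t, h t.2⟩ : S))) ∘ₗ restr F S := by
    ext; rfl
  unfold rk
  rw [h1, Submodule.map_comp]
  exact Submodule.finrank_map_le _ _

lemma rk_lt {Y Y' : Submodule F (α → F)} (h : Y ≤ Y') {T : Finset α} {R : α → F} (hR : R ∈ Y')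
    (hR' : restr F T R ∉ Y.map (restr F T)) : rk Y T < rk Y' T := by
  unfold rk
  apply Submodule.finrank_lt_finrank_of_lt
  refine lt_of_le_of_ne (Submodule.map_mono h) ?_
  intro heq
  apply hR'
  rw [heq]
  exact Submodule.mem_map_of_mem hR

/-- If all vectors of `W` are orthogonal to (the characteristic vector of) a nonempty subset `C` of
`S`, then the restriction of `W` to `S` has dimension less than `|S|`. -/
lemma rk_lt_card {W : Submodule F (α → F)} {S C : Finset α} (hCS : C ⊆ S) (hC : C.Nonempty)
    (h : ∀ x ∈ W, ∑ c ∈ C, x c = 0) : rk W S < S.card := by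
  classical
  have h1 : W.map (restr F S) < ⊤ := by
    rw [lt_top_iff_ne_top]
    intro htop
    obtain ⟨c, hc⟩ := hC
    have : (Pi.single (⟨c, hCS hc⟩ : S) (1 : F)) ∈ W.map (restr F S) := by rw [htop]; trivial
    obtain ⟨x, hxW, hx⟩ := this
    have h2 := h x hxW
    have h3 : ∀ d ∈ C, x d = if d = c then 1 else 0 := by
      intro d hd
      have := congrFun hx ⟨d, hCS hd⟩
      rw [restr_apply] at this
      simp only at this
      rw [this, Pi.single_apply]
      simp [Subtype.ext_iff]
    rw [Finset.sum_congr rfl h3] at h2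
    simp [hc] at h2
  have := Submodule.finrank_lt h1.ne
  unfold rk
  simpa using this

end Rank

/-! ### The counting lemma -/

section Counting

variable {α : Type u} [DecidableEq α] {F : Type*} [Field F]

/-- The main counting lemma. `W` is a space of vectors spanned by vectors `B` of support size at
most `L`.  A finite family `𝓕` of finite sets `S` is given, such that `W|S` has dimension at most
`r`, and such that no nonempty proper part of `S` splits `W|S`.  Then the number of members `S` of
the family with prescribed nonempty trace `T` on the set `U` is at most `2 ^ ((L - 1) * d)`,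
if there is a space `Y` of vectors of `W` supported in `U` whose restriction to `T` has dimension
at least `r - d`. -/
lemma counting (W : Submodule F (α → F)) (B : Set (α → F)) (hB : span F B = W) (L : ℕ)
    (hBfin : ∀ b ∈ B, ∃ D : Finset α, D.card ≤ L ∧ ∀ a, b a ≠ 0 → a ∈ D)
    (𝓕 : Finset (Finset α)) (r : ℕ) (hrk : ∀ S ∈ 𝓕, rk W S ≤ r)
    (hconn : ∀ S ∈ 𝓕, ∀ T ⊆ S, T.Nonempty →
      (∀ x ∈ W, ∃ y ∈ W, (∀ s ∈ T, y s = x s) ∧ (∀ s ∈ S, s ∉ T → y s = 0)) → T = S) :
    ∀ (d : ℕ) (U T : Finset α) (Y : Submodule F (α → F)), T.Nonempty → Y ≤ W →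
      (∀ y ∈ Y, ∀ a ∉ U, y a = 0) → r ≤ rk Y T + d →
      (𝓕.filter (fun S => S ∩ U = T)).card ≤ 2 ^ ((L - 1) * d) := by
  intro d
  induction d with
  | zero =>
    intro U T Y hT hYW hYU hr
    by_cases hex : ∃ R ∈ B, restr F T R ∉ Y.map (restr F T)
    · -- no set of the family has trace `T`
      obtain ⟨R, hRB, hR⟩ := hex
      have hRW : R ∈ W := by rw [← hB]; exact subset_span hRB
      have : 𝓕.filter (fun S => S ∩ U = T) = ∅ := by
        rw [Finset.filter_eq_empty_iff]
        intro S hS hSU
        have h1 : rk Y T < rk W T := rk_lt hYW hRW hR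
        have h2 : rk W T ≤ rk W S := rk_mono_right W (by rw [← hSU]; exact Finset.inter_subset_left)
        have h3 := hrk S hS
        omega
      rw [this]
      simp
    · push Not at hex
      have : 𝓕.filter (fun S => S ∩ U = T) ⊆ {T} := by
        intro S hS
        rw [Finset.mem_filter] at hS
        obtain ⟨hS, hSU⟩ := hS
        have hTS : T ⊆ S := by rw [← hSU]; exact Finset.inter_subset_left
        have hall : ∀ x ∈ W, restr F T x ∈ Y.map (restr F T) := by
          intro x hx
          rw [← hB] at hx
          have : span F B ≤ (Y.map (restr F T)).comap (restr F T) := by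
            rw [span_le]
            intro b hb
            exact hex b hb
          exact this hx
        rw [Finset.mem_singleton]
        symm
        apply hconn S hS T hTS hT
        intro x hx
        obtain ⟨y, hyY, hy⟩ := hall x hx
        refine ⟨y, hYW hyY, ?_, ?_⟩
        · intro s hs
          exact congrFun hy ⟨s, hs⟩
        · intro s hs hsT
          apply hYU y hyY
          intro hsU
          exact hsT (by rw [← hSU]; exact Finset.mem_inter.2 ⟨hs, hsU⟩)
      calc (𝓕.filter (fun S => S ∩ U = T)).card ≤ ({T} : Finset (Finset α)).card :=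
            Finset.card_le_card this
        _ = 1 := by simp
        _ ≤ _ := Nat.one_le_two_pow
  | succ d ih =>
    intro U T Y hT hYW hYU hr
    by_cases hex : ∃ R ∈ B, restr F T R ∉ Y.map (restr F T)
    · obtain ⟨R, hRB, hR⟩ := hex
      have hRW : R ∈ W := by rw [← hB]; exact subset_span hRB
      obtain ⟨D, hDL, hD⟩ := hBfin R hRB
      -- `R` meets `T`
      have hRT : ∃ t ∈ T, R t ≠ 0 := by
        by_contra hcon
        push Not at hcon
        apply hR
        have : restr F T R = 0 := by
          ext t
          exact hcon t t.2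
        rw [this]
        exact zero_mem _
      by_cases hTU : T ⊆ U
      · set U' := U ∪ D with hU'
        set Y' := Y ⊔ span F {R} with hY'
        have hY'W : Y' ≤ W := by
          rw [hY', sup_le_iff]
          refine ⟨hYW, ?_⟩
          rw [span_le, Set.singleton_subset_iff]
          exact hRW
        have hY'U : ∀ y ∈ Y', ∀ a ∉ U', y a = 0 := by
          intro y hy a ha
          rw [hY', Submodule.mem_sup] at hy
          obtain ⟨y₁, hy₁, y₂, hy₂, rfl⟩ := hy
          rw [mem_span_singleton] at hy₂
          obtain ⟨c, rfl⟩ := hy₂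
          rw [hU', Finset.mem_union, not_or] at ha
          have h1 := hYU y₁ hy₁ a ha.1
          have h2 : R a = 0 := by
            by_contra hne
            exact ha.2 (hD a hne)
          simp [h1, h2]
        -- the new traces
        set P := (D \ U).powerset with hP
        have hPcard : P.card ≤ 2 ^ (L - 1) := by
          rw [hP, Finset.card_powerset]
          apply Nat.pow_le_pow_right (by norm_num)
          obtain ⟨t, htT, hRt⟩ := hRT
          have htD : t ∈ D := hD t hRt
          have h1 : D \ U ⊆ D.erase t := by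
            intro a ha
            rw [Finset.mem_sdiff] at ha
            rw [Finset.mem_erase]
            refine ⟨?_, ha.1⟩
            rintro rfl
            exact ha.2 (hTU htT)
          have h2 := Finset.card_le_card h1
          rw [Finset.card_erase_of_mem htD] at h2
          omega
        have hsub : 𝓕.filter (fun S => S ∩ U = T) ⊆
            P.biUnion (fun Z => 𝓕.filter (fun S => S ∩ U' = T ∪ Z)) := by
          intro S hS
          rw [Finset.mem_filter] at hS
          rw [Finset.mem_biUnion]
          refine ⟨S ∩ (D \ U), ?_, ?_⟩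
          · rw [hP, Finset.mem_powerset]
            exact Finset.inter_subset_right
          · rw [Finset.mem_filter]
            refine ⟨hS.1, ?_⟩
            rw [hU', ← hS.2]
            ext a
            simp only [Finset.mem_inter, Finset.mem_union, Finset.mem_sdiff]
            tauto
        have hbound : ∀ Z ∈ P, (𝓕.filter (fun S => S ∩ U' = T ∪ Z)).card ≤ 2 ^ ((L - 1) * d) := by
          intro Z _
          apply ih U' (T ∪ Z) Y' (hT.mono Finset.subset_union_left) hY'W hY'U
          have h1 : rk Y T < rk Y' T :=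
            rk_lt le_sup_left (by rw [hY']; exact mem_sup_right (mem_span_singleton_self R)) hR
          have h2 : rk Y' T ≤ rk Y' (T ∪ Z) := rk_mono_right Y' Finset.subset_union_left
          omega
        calc (𝓕.filter (fun S => S ∩ U = T)).card
            ≤ (P.biUnion (fun Z => 𝓕.filter (fun S => S ∩ U' = T ∪ Z))).card :=
              Finset.card_le_card hsub
          _ ≤ ∑ Z ∈ P, (𝓕.filter (fun S => S ∩ U' = T ∪ Z)).card := Finset.card_biUnion_le
          _ ≤ ∑ _Z ∈ P, 2 ^ ((L - 1) * d) := Finset.sum_le_sum hbound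
          _ = P.card * 2 ^ ((L - 1) * d) := by rw [Finset.sum_const, smul_eq_mul]
          _ ≤ 2 ^ (L - 1) * 2 ^ ((L - 1) * d) := Nat.mul_le_mul_right _ hPcard
          _ = 2 ^ ((L - 1) * (d + 1)) := by rw [← pow_add]; congr 1; ring
      · -- the family is empty
        have : 𝓕.filter (fun S => S ∩ U = T) = ∅ := by
          rw [Finset.filter_eq_empty_iff]
          intro S _ hSU
          apply hTU
          rw [← hSU]
          exact Finset.inter_subset_right
        rw [this]
        simp
    · push Not at hex
      have : 𝓕.filter (fun S => S ∩ U = T) ⊆ {T} := by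
        intro S hS
        rw [Finset.mem_filter] at hS
        obtain ⟨hS, hSU⟩ := hS
        have hTS : T ⊆ S := by rw [← hSU]; exact Finset.inter_subset_left
        have hall : ∀ x ∈ W, restr F T x ∈ Y.map (restr F T) := by
          intro x hx
          rw [← hB] at hx
          have : span F B ≤ (Y.map (restr F T)).comap (restr F T) := by
            rw [span_le]
            intro b hb
            exact hex b hb
          exact this hx
        rw [Finset.mem_singleton]
        symm
        apply hconn S hS T hTS hT
        intro x hx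
        obtain ⟨y, hyY, hy⟩ := hall x hx
        refine ⟨y, hYW hyY, ?_, ?_⟩
        · intro s hs
          exact congrFun hy ⟨s, hs⟩
        · intro s hs hsT
          apply hYU y hyY
          intro hsU
          exact hsT (by rw [← hSU]; exact Finset.mem_inter.2 ⟨hs, hsU⟩)
      calc (𝓕.filter (fun S => S ∩ U = T)).card ≤ ({T} : Finset (Finset α)).card :=
            Finset.card_le_card this
        _ = 1 := by simp
        _ ≤ _ := Nat.one_le_two_pow

end Counting

/-! ### Matroid theory: orthogonality in binary matroids -/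

section MatroidPart

variable {α : Type u} {M : Matroid α}

/-- Closure in a represented matroid is given by linear spans. -/
lemma mem_closure_iff {m : ℕ} {A : Matrix (Fin m) α (ZMod 2)}
    (hA : ∀ I ⊆ M.E, (M.Indep I ↔ LinearIndepOn (ZMod 2) A.col I)) {X : Set α} (hX : X ⊆ M.E)
    {a : α} (ha : a ∈ M.E) : a ∈ M.closure X ↔ A.col a ∈ span (ZMod 2) (A.col '' X) := by
  obtain ⟨I, hI⟩ := M.exists_isBasis X
  have key : ∀ b ∈ M.E, (b ∈ M.closure I ↔ A.col b ∈ span (ZMod 2) (A.col '' I)) := by
    intro b hb
    have hlin := (hA I hI.indep.subset_ground).1 hI.indep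
    rw [hlin.mem_span_iff, ← hA _ (Set.insert_subset hb hI.indep.subset_ground)]
    rw [hI.indep.mem_closure_iff']
    tauto
  have hspan : span (ZMod 2) (A.col '' X) = span (ZMod 2) (A.col '' I) := by
    apply le_antisymm
    · rw [span_le]
      rintro _ ⟨x, hx, rfl⟩
      exact (key x (hX hx)).1 (hI.subset_closure hx)
    · exact span_mono (Set.image_mono hI.subset)
  rw [hspan, ← key a ha, hI.closure_eq_closure]

/-- A cocircuit of a binary matroid is the nonvanishing set of a linear functional. -/
lemma exists_functional {m : ℕ} {A : Matrix (Fin m) α (ZMod 2)}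
    (hA : ∀ I ⊆ M.E, (M.Indep I ↔ LinearIndepOn (ZMod 2) A.col I)) {K : Set α}
    (hK : M.IsCocircuit K) :
    ∃ φ : (Fin m → ZMod 2) →ₗ[ZMod 2] ZMod 2, ∀ a ∈ M.E, φ (A.col a) = charVec K a := by
  rw [Matroid.isCocircuit_iff_minimal_compl_nonspanning] at hK
  have hns := hK.prop
  have hKE : K ⊆ M.E := by
    have h1 : M.E \ (K ∩ M.E) = M.E \ K := by ext; simp
    have h2 : K ⊆ K ∩ M.E := hK.le_of_le (by simpa only [h1] using hns) Set.inter_subset_left
    exact h2.trans Set.inter_subset_right
  have hex : ∃ a ∈ M.E, A.col a ∉ span (ZMod 2) (A.col '' (M.E \ K)) := by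
    by_contra hcon
    push Not at hcon
    apply hns
    rw [Matroid.spanning_iff_ground_subset_closure Set.sdiff_subset]
    intro a ha
    exact (mem_closure_iff hA Set.sdiff_subset ha).2 (hcon a ha)
  obtain ⟨a, ha, hasp⟩ := hex
  obtain ⟨φ, hφa, hφ⟩ := Submodule.exists_le_ker_of_notMem hasp
  refine ⟨φ, ?_⟩
  have hφ0 : ∀ b ∈ M.E, b ∉ K → φ (A.col b) = 0 := by
    intro b hb hbK
    exact hφ (subset_span ⟨b, ⟨hb, hbK⟩, rfl⟩)
  -- the nonvanishing set of `φ` has nonspanning complement
  have hK' : ¬ M.Spanning (M.E \ {b | b ∈ M.E ∧ φ (A.col b) ≠ 0}) := by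
    intro hsp
    rw [Matroid.spanning_iff_ground_subset_closure Set.sdiff_subset] at hsp
    have h1 := (mem_closure_iff hA Set.sdiff_subset ha).1 (hsp ha)
    have h2 : span (ZMod 2) (A.col '' (M.E \ {b | b ∈ M.E ∧ φ (A.col b) ≠ 0})) ≤
        LinearMap.ker φ := by
      rw [span_le]
      rintro _ ⟨b, hb, rfl⟩
      by_contra hne
      exact hb.2 ⟨hb.1, hne⟩
    exact hφa (h2 h1)
  have hsubK : {b | b ∈ M.E ∧ φ (A.col b) ≠ 0} ⊆ K := by
    rintro b ⟨hb, hne⟩
    by_contra hbK
    exact hne (hφ0 b hb hbK)
  have hKsub : K ⊆ {b | b ∈ M.E ∧ φ (A.col b) ≠ 0} := hK.le_of_le hK' hsubK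
  intro b hb
  by_cases hbK : b ∈ K
  · have h1 : φ (A.col b) ≠ 0 := (hKsub hbK).2
    have h2 : ∀ z : ZMod 2, z ≠ 0 → z = 1 := by decide
    rw [h2 _ h1]
    simp [charVec, hbK]
  · rw [hφ0 b hb hbK]
    simp [charVec, hbK]

/-- The columns of a circuit of a binary matroid sum to zero. -/
lemma sum_circuit {m : ℕ} {A : Matrix (Fin m) α (ZMod 2)}
    (hA : ∀ I ⊆ M.E, (M.Indep I ↔ LinearIndepOn (ZMod 2) A.col I)) {C : Finset α}
    (hC : M.IsCircuit (C : Set α)) : ∑ c ∈ C, A.col c = 0 := by
  classical
  have hdep : ¬ LinearIndepOn (ZMod 2) A.col (C : Set α) := by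
    rw [← hA _ hC.subset_ground]
    exact hC.not_indep
  rw [linearIndepOn_iff'] at hdep
  push Not at hdep
  obtain ⟨t, g, htC, hsum, i, hit, hgi⟩ := hdep
  set D := t.filter (fun j => g j ≠ 0) with hD
  have h01 : ∀ z : ZMod 2, z ≠ 0 → z = 1 := by decide
  have hDsum : ∑ j ∈ D, A.col j = 0 := by
    rw [← hsum, hD, Finset.sum_filter]
    apply Finset.sum_congr rfl
    intro j _
    by_cases hj : g j = 0
    · simp [hj]
    · simp [h01 _ hj]
  have hDC : D ⊆ C := by
    intro j hj
    rw [hD, Finset.mem_filter] at hj
    exact_mod_cast htC hj.1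
  have hDdep : ¬ M.Indep (D : Set α) := by
    rw [hA _ ((Finset.coe_subset.2 hDC).trans hC.subset_ground), linearIndepOn_iff']
    push Not
    refine ⟨D, fun _ => 1, le_refl _, by simpa using hDsum, i, ?_, one_ne_zero⟩
    rw [hD, Finset.mem_filter]
    exact ⟨hit, hgi⟩
  have hDeq : D = C := by
    have := hC.eq_of_not_indep_subset hDdep (Finset.coe_subset.2 hDC)
    exact_mod_cast this
  rw [← hDeq]
  exact hDsum

/-- Binary orthogonality: every cocycle meets every circuit in an even number of elements. -/
lemma sum_cocycle (hM : IsBinary M) {C : Finset α} (hC : M.IsCircuit (C : Set α))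
    {x : α → ZMod 2} (hx : x ∈ cocycleSpace M) : ∑ c ∈ C, x c = 0 := by
  obtain ⟨m, A, hA⟩ := hM
  unfold cocycleSpace at hx
  induction hx using span_induction with
  | mem x hx =>
    obtain ⟨K, hK, rfl⟩ := hx
    obtain ⟨φ, hφ⟩ := exists_functional hA hK
    have h1 : ∀ c ∈ C, charVec K c = φ (A.col c) := fun c hc =>
      (hφ c (hC.subset_ground (by exact_mod_cast hc))).symm
    rw [Finset.sum_congr rfl h1, ← map_sum, sum_circuit hA hC, map_zero]
  | zero => simp
  | add x y _ _ hx hy => simp [Finset.sum_add_distrib, hx, hy]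
  | smul a x _ hx => simp [← Finset.mul_sum, hx]

/-- Cocycles are supported in the ground set. -/
lemma support_subset {x : α → ZMod 2} (hx : x ∈ cocycleSpace M) : Function.support x ⊆ M.E := by
  unfold cocycleSpace at hx
  induction hx using span_induction with
  | mem x hx =>
    obtain ⟨K, hK, rfl⟩ := hx
    intro a ha
    by_contra hne
    have : a ∉ K := fun h => hne (hK.subset_ground h)
    simp [charVec, this] at ha
  | zero => simp
  | add x y _ _ hx hy =>
    intro a ha
    by_contra hne
    have h1 : x a = 0 := by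
      by_contra h; exact hne (hx h)
    have h2 : y a = 0 := by
      by_contra h; exact hne (hy h)
    simp [h1, h2] at ha
  | smul a x _ hx =>
    intro b hb
    by_contra hne
    have h1 : x b = 0 := by
      by_contra h; exact hne (hx h)
    simp [h1] at hb

/-- A connected restriction is not split by the cocycle space. -/
lemma connected_not_split (hM : IsBinary M) [DecidableEq α] {S T : Finset α}
    (hSE : (S : Set α) ⊆ M.E) (hconn : IsConnectedOn M (S : Set α)) (hTS : T ⊆ S)
    (hT : T.Nonempty)
    (h : ∀ x ∈ cocycleSpace M, ∃ y ∈ cocycleSpace M, (∀ s ∈ T, y s = x s) ∧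
      (∀ s ∈ S, s ∉ T → y s = 0)) : T = S := by
  by_contra hne
  obtain ⟨a, haT⟩ := hT
  obtain ⟨b, hbS, hbT⟩ : ∃ b ∈ S, b ∉ T := by
    by_contra hcon
    push Not at hcon
    exact hne (Finset.Subset.antisymm hTS hcon)
  have hab : a ≠ b := fun h => hbT (h ▸ haT)
  obtain ⟨C, hC, haC, hbC⟩ := hconn a (by exact_mod_cast hTS haT) b (by exact_mod_cast hbS) hab
  rw [Matroid.restrict_isCircuit_iff hSE] at hC
  obtain ⟨hC, hCS⟩ := hC
  have hCfin : C.Finite := (Finset.finite_toSet S).subset hCS
  lift C to Finset α using hCfin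
  set D := C ∩ T with hD
  have hDC : (D : Set α) ⊂ (C : Set α) := by
    rw [Finset.coe_ssubset, Finset.ssubset_iff_subset_ne]
    refine ⟨Finset.inter_subset_left, ?_⟩
    intro heq
    have hb : b ∈ D := by rw [heq]; exact_mod_cast hbC
    rw [hD, Finset.mem_inter] at hb
    exact hbT hb.2
  have hDind : M.Indep (D : Set α) := hC.ssubset_indep hDC
  have haD : a ∈ (D : Set α) := by
    rw [Finset.mem_coe, hD, Finset.mem_inter]
    exact ⟨by exact_mod_cast haC, haT⟩
  obtain ⟨K, hK, hKD⟩ := hDind.exists_isCocircuit_inter_eq_mem haD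
  have hx : charVec K ∈ cocycleSpace M := subset_span ⟨K, hK, rfl⟩
  obtain ⟨y, hy, hyT, hyS⟩ := h _ hx
  have h1 := sum_cocycle hM hC hy
  have h2 : ∑ c ∈ C, y c = ∑ c ∈ D, charVec K c := by
    rw [hD, ← Finset.filter_mem_eq_inter, Finset.sum_filter]
    apply Finset.sum_congr rfl
    intro c hc
    by_cases hcT : c ∈ T
    · rw [if_pos hcT, hyT c hcT]
    · rw [if_neg hcT]
      exact hyS c (by exact_mod_cast hCS (by exact_mod_cast hc)) hcT
  have h3 : ∑ c ∈ D, charVec K c = 1 := by
    rw [Finset.sum_eq_single a]
    · have : a ∈ K := by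
        have : a ∈ K ∩ (D : Set α) := by rw [hKD]; rfl
        exact this.1
      simp [charVec, this]
    · intro c hc hca
      have : c ∉ K := by
        intro hcK
        have : c ∈ K ∩ (D : Set α) := ⟨hcK, by exact_mod_cast hc⟩
        rw [hKD] at this
        exact hca this
      simp [charVec, this]
    · intro h
      exact absurd (by exact_mod_cast haD) h
  rw [h2, h3] at h1
  exact one_ne_zero h1

/-- There is a basis of the cocycle space all of whose members have size at most
`lambdaTilde M`. -/
lemma exists_basis [M.Finite] : ∃ B : Set (α → ZMod 2), span (ZMod 2) B = cocycleSpace M ∧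
    ∀ b ∈ B, ∃ D : Finset α, D.card ≤ lambdaTilde M ∧ ∀ a, b a ≠ 0 → a ∈ D := by
  have hne : {m | ∃ B : Set (α → ZMod 2), IsCocycleBasis M B ∧
    m = sSup {n | ∃ x ∈ B, n = (Function.support x).ncard}}.Nonempty := by
    obtain ⟨b, _, hb2, hb3⟩ := exists_linearIndependent (ZMod 2)
      {x : α → ZMod 2 | ∃ K, M.IsCocircuit K ∧ x = charVec K}
    exact ⟨_, b, ⟨hb3, hb2⟩, rfl⟩
  obtain ⟨B, hB, hBm⟩ := Nat.sInf_mem hne
  change lambdaTilde M = _ at hBm
  refine ⟨B, hB.2, ?_⟩
  intro b hb
  have hbW : b ∈ cocycleSpace M := by rw [← hB.2]; exact subset_span hb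
  have hsub := support_subset hbW
  have hfin : (Function.support b).Finite := M.ground_finite.subset hsub
  refine ⟨hfin.toFinset, ?_, fun a ha => by simpa using ha⟩
  rw [hBm, ← Set.ncard_eq_toFinset_card _ hfin]
  apply le_csSup
  · refine ⟨M.E.ncard, ?_⟩
    rintro n ⟨x, hx, rfl⟩
    have hxW : x ∈ cocycleSpace M := by rw [← hB.2]; exact subset_span hx
    exact Set.ncard_le_ncard (support_subset hxW) M.ground_finite
  · exact ⟨b, hb, rfl⟩

end MatroidPart

/-- **Main theorem.** Let `M` be a binary matroid on a finite ground set, `e` an element of `M` and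
`k ≥ 1`.  Then the number `N_k(M, e)` of `k`-element sets `S` containing `e` with `M | S` connected
is at most `(2 ^ (Λ - 1)) ^ (k - 1)`, where `Λ = lambdaTilde M`. -/
theorem result {α : Type u} (M : Matroid α) [M.Finite] (hM : IsBinary M) (e : α) (_he : e ∈ M.E)
    (k : ℕ) (hk : 1 ≤ k) :
    numConnected M e k ≤ (2 ^ (lambdaTilde M - 1)) ^ (k - 1) := by
  classical
  unfold numConnected
  rcases Nat.lt_or_ge k 2 with hk1 | hk2
  · -- `k = 1`
    have hk1 : k = 1 := by omega
    subst hk1
    have hsub : {S : Set α | S ⊆ M.E ∧ e ∈ S ∧ S.ncard = 1 ∧ IsConnectedOn M S} ⊆ {{e}} := by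
      rintro S ⟨_, heS, hS1, _⟩
      rw [Set.ncard_eq_one] at hS1
      obtain ⟨a, rfl⟩ := hS1
      rw [Set.mem_singleton_iff] at heS
      rw [heS]
      rfl
    have := Set.ncard_le_ncard hsub (Set.finite_singleton _)
    rw [Set.ncard_singleton] at this
    simpa using this
  · obtain ⟨B, hB, hBL⟩ := exists_basis (M := M)
    set E : Finset α := M.ground_finite.toFinset with hE
    have hEM : (E : Set α) = M.E := by simp [hE]
    set 𝓕 : Finset (Finset α) := E.powerset.filter
      (fun S => e ∈ S ∧ S.card = k ∧ IsConnectedOn M (S : Set α)) with h𝓕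
    have hcount : {S : Set α | S ⊆ M.E ∧ e ∈ S ∧ S.ncard = k ∧ IsConnectedOn M S}.ncard
        ≤ 𝓕.card := by
      have hsub : {S : Set α | S ⊆ M.E ∧ e ∈ S ∧ S.ncard = k ∧ IsConnectedOn M S} ⊆
          (fun S : Finset α => (S : Set α)) '' (𝓕 : Set (Finset α)) := by
        rintro S ⟨hSE, heS, hSk, hS⟩
        have hSfin : S.Finite := M.ground_finite.subset hSE
        lift S to Finset α using hSfin
        refine ⟨S, ?_, rfl⟩
        rw [Finset.mem_coe, h𝓕, Finset.mem_filter, Finset.mem_powerset]
        refine ⟨?_, by exact_mod_cast heS, by rwa [Set.ncard_coe_finset] at hSk, hS⟩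
        rw [← Finset.coe_subset, hEM]
        exact hSE
      refine (Set.ncard_le_ncard hsub ((Finset.finite_toSet _).image _)).trans ?_
      refine (Set.ncard_image_le (Finset.finite_toSet _)).trans ?_
      rw [Set.ncard_coe_finset]
    refine hcount.trans ?_
    have hmem : ∀ S ∈ 𝓕, (S : Set α) ⊆ M.E ∧ e ∈ S ∧ S.card = k ∧ IsConnectedOn M (S : Set α) := by
      intro S hS
      rw [h𝓕, Finset.mem_filter, Finset.mem_powerset, ← Finset.coe_subset, hEM] at hS
      exact hS
    have hrk : ∀ S ∈ 𝓕, rk (cocycleSpace M) S ≤ k - 1 := by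
      intro S hS
      obtain ⟨hSE, heS, hSk, hconn⟩ := hmem S hS
      obtain ⟨f, hfS, hfe⟩ : ∃ f ∈ S, f ≠ e := by
        have : 1 < S.card := by omega
        obtain ⟨f, hf, hfe⟩ := Finset.exists_mem_ne this e
        exact ⟨f, hf, hfe⟩
      obtain ⟨C, hC, _, heC⟩ := hconn f (by exact_mod_cast hfS) e (by exact_mod_cast heS) hfe
      rw [Matroid.restrict_isCircuit_iff hSE] at hC
      obtain ⟨hC, hCS⟩ := hC
      have hCfin : C.Finite := (Finset.finite_toSet S).subset hCS
      lift C to Finset α using hCfin
      have := rk_lt_card (W := cocycleSpace M) (S := S) (C := C) (by exact_mod_cast hCS)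
        ⟨e, by exact_mod_cast heC⟩ (fun x hx => sum_cocycle hM hC hx)
      omega
    have hmain := counting (cocycleSpace M) B hB (lambdaTilde M) hBL 𝓕 (k - 1) hrk
      (fun S hS T hTS hT h => connected_not_split hM (hmem S hS).1 (hmem S hS).2.2.2 hTS hT h)
      (k - 1) {e} {e} ⊥ (Finset.singleton_nonempty e) bot_le
      (by intro y hy a _; rw [Submodule.mem_bot] at hy; simp [hy]) (by omega)
    have hfilter : 𝓕.filter (fun S => S ∩ {e} = {e}) = 𝓕 := by
      rw [Finset.filter_eq_self]
      intro S hS
      rw [Finset.inter_eq_right, Finset.singleton_subset_iff]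
      exact (hmem S hS).2.1
    rw [hfilter, pow_mul] at hmain
    exact hmain

end Pool.Agent.Results.MP_0dc42e_co.ConnectedRestrictionBound
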